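import Pool.Agent.ZP3.Stmts

/-!
Squad ZP3, module TTL (block T): the three term lemma.
-/

set_option autoImplicit false

namespace Pool.Agent.ZP3.H28

open Pool.Agent.ZPT

noncomputable section

/-! ### The groups `‖u - 1‖ < ε`, `ε ≤ 1` -/

section

variable {K : Type} [NormedField K] [IsUltrametricDist K]

theorem gnorm {ε : ℝ} (hε : ε ≤ 1) {u : K} (h : ‖u - 1‖ < ε) : ‖u‖ = 1 := by
  have h1 : ‖u - 1‖ < 1 := lt_of_lt_of_le h hε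
  have hne : ‖u - 1‖ ≠ ‖(1 : K)‖ := by rw [norm_one]; exact h1.ne
  have h2 := IsUltrametricDist.norm_add_eq_max_of_norm_ne_norm hne
  rw [sub_add_cancel, norm_one, max_eq_right h1.le] at h2
  exact h2

theorem gne {ε : ℝ} (hε : ε ≤ 1) {u : K} (h : ‖u - 1‖ < ε) : u ≠ 0 := by
  have := gnorm hε h
  intro h0
  rw [h0, norm_zero] at this
  exact zero_ne_one this

theorem gmul {ε : ℝ} (hε : ε ≤ 1) {u v : K} (hu : ‖u - 1‖ < ε) (hv : ‖v - 1‖ < ε) :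
    ‖u * v - 1‖ < ε := by
  have h1 : u * v - 1 = u * (v - 1) + (u - 1) := by ring
  rw [h1]
  refine lt_of_le_of_lt (IsUltrametricDist.norm_add_le_max _ _) (max_lt ?_ hu)
  rw [norm_mul, gnorm hε hu, one_mul]
  exact hv

theorem ginv {ε : ℝ} (hε : ε ≤ 1) {u : K} (hu : ‖u - 1‖ < ε) : ‖u⁻¹ - 1‖ < ε := by
  have h0 := gne hε hu
  have h1 : u⁻¹ - 1 = -(u - 1) * u⁻¹ := by field_simp; ring
  rw [h1, norm_mul, norm_neg, norm_inv, gnorm hε hu, inv_one, mul_one]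
  exact hu

theorem gpow {ε : ℝ} (hε0 : 0 < ε) (hε : ε ≤ 1) {u : K} (hu : ‖u - 1‖ < ε) (n : ℕ) :
    ‖u ^ n - 1‖ < ε := by
  induction n with
  | zero => simpa using hε0
  | succ n ih => rw [pow_succ]; exact gmul hε ih hu

theorem gdiv {ε : ℝ} (hε : ε ≤ 1) {u v : K} (hu : ‖u - 1‖ < ε) (hv : ‖v - 1‖ < ε) :
    ‖u / v - 1‖ < ε := by
  rw [div_eq_mul_inv]
  exact gmul hε hu (ginv hε hv)

end

/-- The facts about `K` used below. -/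
structure Ctx (p : ℕ) (K : Type) [NormedField K] : Prop where
  p7 : 7 ≤ p
  t0 : 0 < th p
  t1 : th p < 1
  tp : (p : ℝ)⁻¹ < th p ^ 3
  pn : ‖(p : K)‖ = (p : ℝ)⁻¹
  one : Ur p (1 : K)
  sub : ∀ a b : K, Ur p a → Ur p b → Ur p (a - b)
  small : ∀ a : K, Ur p a → ‖a‖ < 1 → ‖a‖ ≤ (p : ℝ)⁻¹
  mul : ∀ a b : K, Uu p a → Uu p b → Uu p (a * b)
  neg : ∀ a : K, Uu p a → Uu p (-a)
  inv : ∀ a : K, Uu p a → Uu p a⁻¹
  tam : ∀ x : K, Tame p x → Uu p x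
  spl : ∀ x : K, Ro x →
    ∃ y w : K, x = y * w ∧ Tame p y ∧ (w = 1 ∨ ∃ k : ℕ, 1 ≤ k ∧ IsPrimitiveRoot w (p ^ k))
  wwn : ∀ (k : ℕ) (w : K), 1 ≤ k → IsPrimitiveRoot w (p ^ k) →
    ‖w - 1‖ ^ (p ^ (k - 1) * (p - 1)) = (p : ℝ)⁻¹ ∧ th p ≤ ‖w - 1‖ ∧ ‖w - 1‖ < 1
  wlm : ∀ (k : ℕ) (w B x : K), 1 ≤ k → IsPrimitiveRoot w (p ^ k) → Uu p B → Ro x →
    th p ^ 2 ≤ ‖(w - 1) ^ (p ^ (k - 1) * (p - 1)) / (p : K) * B * x - 1‖

section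

variable {p : ℕ} {K : Type} [NormedField K]

theorem Ctx.t3 (C : Ctx p K) : th p ^ 3 ≤ 1 := pow_le_one₀ C.t0.le C.t1.le

theorem Ctx.t2 (C : Ctx p K) : th p ^ 2 ≤ 1 := pow_le_one₀ C.t0.le C.t1.le

theorem Ctx.t32 (C : Ctx p K) : th p ^ 3 ≤ th p ^ 2 :=
  pow_le_pow_of_le_one C.t0.le C.t1.le (by norm_num)

theorem Ctx.t2p (C : Ctx p K) : 0 < th p ^ 2 := pow_pos C.t0 2

theorem Ctx.div (C : Ctx p K) {a b : K} (ha : Uu p a) (hb : Uu p b) : Uu p (a / b) := by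
  rw [div_eq_mul_inv]
  exact C.mul _ _ ha (C.inv _ hb)

theorem Ctx.pow (C : Ctx p K) {a : K} (ha : Uu p a) (n : ℕ) : Uu p (a ^ n) := by
  induction n with
  | zero => rw [pow_zero]; exact ⟨C.one, norm_one⟩
  | succ n ih => rw [pow_succ]; exact C.mul _ _ ih ha

theorem Ctx.ne {a : K} (ha : Uu p a) : a ≠ 0 := by
  have := ha.2
  intro h0
  rw [h0, norm_zero] at this
  exact zero_ne_one this

theorem Ctx.ppos (C : Ctx p K) : (0 : ℝ) < p := by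
  have := C.p7
  exact_mod_cast (by omega : 0 < p)

theorem Ctx.pgt (C : Ctx p K) : (1 : ℝ) < p := by
  have := C.p7
  exact_mod_cast (by omega : 1 < p)

theorem Ctx.pK (C : Ctx p K) : (p : K) ≠ 0 := by
  intro h
  have := C.pn
  rw [h, norm_zero] at this
  exact (inv_pos.2 C.ppos).ne this

theorem Ctx.phi (C : Ctx p K) (k : ℕ) : 1 < p ^ (k - 1) * (p - 1) := by
  have h7 := C.p7
  have h1 : 1 ≤ p ^ (k - 1) := Nat.one_le_pow _ _ (by omega)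
  calc 1 < p - 1 := by omega
    _ = 1 * (p - 1) := (one_mul _).symm
    _ ≤ p ^ (k - 1) * (p - 1) := Nat.mul_le_mul_right _ h1

end

section

variable {p : ℕ} {K : Type} [NormedField K] [IsUltrametricDist K]

/-- Expansion near 1. -/
theorem el (C : Ctx p K) {c η g : K} (hc : Ur p c) (h1 : ‖η - 1‖ < 1) (h2 : th p ≤ ‖η - 1‖)
    (hg : ‖g - 1‖ < th p ^ 3) (h : ‖c * η * g - 1‖ < 1) :
    ∃ u : K, ‖u - 1‖ < th p ^ 2 ∧ 1 - c * η * g = -(η - 1) * u := by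
  have hg1 : ‖g - 1‖ < 1 := lt_of_lt_of_le hg C.t3
  have hη0 : η ≠ 0 := gne le_rfl h1
  have hg0 : g ≠ 0 := gne le_rfl hg1
  have hc1 : ‖c - 1‖ < 1 := by
    have h3 : c = c * η * g / (η * g) := by field_simp
    rw [h3]
    exact gdiv le_rfl h (gmul le_rfl h1 hg1)
  have hc2 : ‖c - 1‖ < th p ^ 3 := lt_of_le_of_lt (C.small _ (C.sub _ _ hc C.one) hc1) C.tp
  have hw : ‖c * g - 1‖ < th p ^ 3 := gmul C.t3 hc2 hg
  have hη1 : 0 < ‖η - 1‖ := lt_of_lt_of_le C.t0 h2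
  have hη : η - 1 ≠ 0 := norm_pos_iff.1 hη1
  refine ⟨(c * η * g - 1) / (η - 1), ?_, ?_⟩
  · have h4 : (c * η * g - 1) / (η - 1) - 1 = η * (c * g - 1) / (η - 1) := by
      field_simp
      ring
    rw [h4, norm_div, norm_mul, gnorm le_rfl h1, one_mul, div_lt_iff₀ hη1]
    calc ‖c * g - 1‖ < th p ^ 3 := hw
      _ = th p ^ 2 * th p := by ring
      _ ≤ th p ^ 2 * ‖η - 1‖ := mul_le_mul_of_nonneg_left h2 C.t2p.le
  · field_simp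
    ring

/-- The final contradiction. -/
theorem fcl (C : Ctx p K) {k : ℕ} {w B x u M κ : K} (hk : 1 ≤ k) (hw : IsPrimitiveRoot w (p ^ k))
    (hB : Uu p B) (hκ : Uu p κ) (hx : Ro x) (hu : ‖u - 1‖ < th p ^ 2)
    (hM : ‖(p : K) * M - κ‖ < th p ^ 2)
    (h : B * x * M * (w - 1) ^ (p ^ (k - 1) * (p - 1)) * u = 1) : False := by
  have h1 := C.wlm k w (κ * B) x hk hw (C.mul _ _ hκ hB) hx
  have hκ0 : κ ≠ 0 := Ctx.ne hκ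
  have hv : ‖(p : K) * M / κ - 1‖ < th p ^ 2 := by
    have h2 : (p : K) * M / κ - 1 = ((p : K) * M - κ) / κ := by field_simp
    rw [h2, norm_div, hκ.2, div_one]
    exact hM
  have hg := ginv C.t2 (gmul C.t2 hv hu)
  have hp0 := C.pK
  have hu0 := gne C.t2 hu
  have hv0 := gne C.t2 hv
  have h3 : (w - 1) ^ (p ^ (k - 1) * (p - 1)) / (p : K) * (κ * B) * x =
      ((p : K) * M / κ * u)⁻¹ := by
    refine eq_inv_of_mul_eq_one_left ?_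
    refine Eq.trans ?_ h
    field_simp
  rw [h3] at h1
  exact absurd hg (not_lt.2 h1)

/-- Multiplicative dependence. -/
def Dp (x z : K) : Prop := ∃ a b : ℕ, 1 ≤ a ∧ 1 ≤ b ∧ x ^ a = z ^ b

/-- Case of two equal large terms. -/
theorem caseB (C : Ctx p K) (hD : DEPStmt) {Y₁ Y₂ Y₃ M₁ M₂ M₃ B₁ B₂ B₃ κ v₁ v₂ v₃ : K}
    (h : Y₁ + Y₂ = Y₃) (h3 : ‖Y₃‖ = p) (h12 : ‖Y₁‖ = ‖Y₂‖) (h2 : p < ‖Y₂‖)
    (hB₁ : Uu p B₁) (hB₂ : Uu p B₂) (hB₃ : Uu p B₃) (hκ : Uu p κ)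
    (e₁ : B₁ * M₁ = v₁ * Y₁) (e₂ : B₂ * M₂ = v₂ * Y₂) (e₃ : B₃ * M₃ = v₃ * Y₃)
    (g₁ : ‖v₁ - 1‖ < th p ^ 3) (g₂ : ‖v₂ - 1‖ < th p ^ 3) (g₃ : ‖v₃ - 1‖ < th p ^ 3)
    (hM : ‖(p : K) * M₃ - κ‖ < th p ^ 3) (d₁ : Dp M₁ M₃) (d₂ : Dp M₂ M₃) :
    Tame p (M₁ / M₂) ∧ ‖M₁ / M₂ + B₂ / B₁‖ < 1 := by
  have hp := C.ppos
  have nv₁ := gnorm C.t3 g₁
  have nv₂ := gnorm C.t3 g₂
  have nv₃ := gnorm C.t3 g₃
  have v₁0 := gne C.t3 g₁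
  have v₂0 := gne C.t3 g₂
  have v₃0 := gne C.t3 g₃
  have B₁0 : B₁ ≠ 0 := Ctx.ne hB₁
  have B₂0 : B₂ ≠ 0 := Ctx.ne hB₂
  have B₃0 : B₃ ≠ 0 := Ctx.ne hB₃
  have n₁ : ‖M₁‖ = ‖Y₁‖ := by
    have := congrArg norm e₁
    rwa [norm_mul, norm_mul, hB₁.2, nv₁, one_mul, one_mul] at this
  have n₂ : ‖M₂‖ = ‖Y₂‖ := by
    have := congrArg norm e₂
    rwa [norm_mul, norm_mul, hB₂.2, nv₂, one_mul, one_mul] at this
  have n₃ : ‖M₃‖ = ‖Y₃‖ := by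
    have := congrArg norm e₃
    rwa [norm_mul, norm_mul, hB₃.2, nv₃, one_mul, one_mul] at this
  have Y₂p : 0 < ‖Y₂‖ := hp.trans h2
  have Y₂0 : Y₂ ≠ 0 := norm_pos_iff.1 Y₂p
  have M₂0 : M₂ ≠ 0 := norm_pos_iff.1 (by rw [n₂]; exact Y₂p)
  have M₃0 : M₃ ≠ 0 := norm_pos_iff.1 (by rw [n₃, h3]; exact hp)
  have M₃1 : ‖M₃‖ ≠ 1 := by rw [n₃, h3]; exact C.pgt.ne'
  obtain ⟨a, b, ha, hb, hab⟩ := d₁
  obtain ⟨c, d, hc, hd, hcd⟩ := d₂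
  obtain ⟨y, w, hyw, hy, hw⟩ := C.spl _
    ((hD K M₁ M₂ M₃ a b c d M₃0 M₃1 ha hb hc hd hab hcd).1 (by rw [n₁, n₂, h12]))
  have hy1 : Uu p y := C.tam _ hy
  have hM₁ : M₁ = y * w * M₂ := by
    rw [← hyw]; field_simp
  have hcu : Uu p (-(B₁ / B₂) * y) := C.mul _ _ (C.neg _ (C.div hB₁ hB₂)) hy1
  have key : 1 - (-(B₁ / B₂) * y) * w * (v₂ / v₁) = Y₃ / Y₂ := by
    have e₁' : B₁ * (y * w * M₂) = v₁ * Y₁ := by rw [← hM₁]; exact e₁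
    have k1 : B₁ * (y * w) * v₂ * Y₂ = B₂ * v₁ * Y₁ := by
      calc B₁ * (y * w) * v₂ * Y₂ = B₁ * (y * w) * (v₂ * Y₂) := by ring
        _ = B₁ * (y * w) * (B₂ * M₂) := by rw [e₂]
        _ = B₂ * (B₁ * (y * w * M₂)) := by ring
        _ = B₂ * (v₁ * Y₁) := by rw [e₁']
        _ = B₂ * v₁ * Y₁ := by ring
    rw [← h]
    field_simp
    linear_combination k1
  have hlt : ‖(-(B₁ / B₂) * y) * w * (v₂ / v₁) - 1‖ < 1 := by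
    rw [norm_sub_rev, key, norm_div, h3, div_lt_one Y₂p]
    exact h2
  have gv : ‖v₂ / v₁ - 1‖ < th p ^ 3 := gdiv C.t3 g₂ g₁
  rcases hw with hw1 | ⟨k, hk, hw⟩
  · subst hw1
    rw [mul_one] at hyw hlt
    refine ⟨by rw [hyw]; exact hy, ?_⟩
    have hc1 : ‖-(B₁ / B₂) * y - 1‖ < 1 := by
      have gv1 : ‖v₂ / v₁ - 1‖ < 1 := lt_of_lt_of_le gv C.t3
      have h5 : -(B₁ / B₂) * y = -(B₁ / B₂) * y * (v₂ / v₁) / (v₂ / v₁) := by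
        rw [mul_div_cancel_right₀ _ (gne le_rfl gv1)]
      rw [h5]
      exact gdiv le_rfl hlt gv1
    have h6 : M₁ / M₂ + B₂ / B₁ = -(B₂ / B₁) * (-(B₁ / B₂) * y - 1) := by
      rw [hyw]
      field_simp
      ring
    rw [h6, norm_mul, norm_neg, norm_div, hB₁.2, hB₂.2, div_one, one_mul]
    exact hc1
  · exfalso
    obtain ⟨w1, w2, w3⟩ := C.wwn k w hk hw
    obtain ⟨u, hu, hu1⟩ := el C hcu.1 w3 w2 gv hlt
    rw [key] at hu1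
    have hu0 := gne C.t2 hu
    have hY₃ : Y₃ = -Y₂ * (w - 1) * u := by
      have := (div_eq_iff Y₂0).1 hu1
      rw [this]; ring
    have hn : ‖Y₂‖ * ‖w - 1‖ = p := by
      have := congrArg norm hY₃
      rw [h3, norm_mul, norm_mul, norm_neg, gnorm C.t2 hu, mul_one] at this
      exact this.symm
    set φ := p ^ (k - 1) * (p - 1) with hφ
    have hφ1 : 1 < φ := C.phi k
    have hn2 : ‖M₂‖ ^ φ = ‖M₃‖ ^ (φ + 1) := by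
      rw [n₂, n₃, h3]
      have h7 : (‖Y₂‖ * ‖w - 1‖) ^ φ = (p : ℝ) ^ φ := by rw [hn]
      rw [mul_pow, w1] at h7
      rw [pow_succ, ← h7]
      field_simp
    obtain ⟨ζ, hζ, hζe⟩ := (hD K M₂ M₂ M₃ c d c d M₃0 M₃1 hc hd hc hd hcd hcd).2.2 φ (φ + 1)
      (by omega) (by omega) hn2
    have hM₃ : M₃ = -(B₂ / B₃) * (u * v₃ / v₂) * M₂ * (w - 1) := by
      have k2 : B₃ * M₃ * v₂ = -(B₂ * M₂) * (w - 1) * (u * v₃) := by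
        rw [e₃, e₂, hY₃]; ring
      field_simp
      linear_combination k2
    have gu : ‖u * v₃ / v₂ - 1‖ < th p ^ 2 :=
      gdiv C.t2 (gmul C.t2 hu (lt_of_lt_of_le g₃ C.t32)) (lt_of_lt_of_le g₂ C.t32)
    refine fcl C hk hw (C.pow (C.neg _ (C.div hB₂ hB₃)) φ) hκ hζ (gpow C.t2p C.t2 gu φ)
      (lt_of_lt_of_le hM C.t32) ?_
    have h8 : M₃ ^ φ = ((-(B₂ / B₃)) ^ φ * ζ * M₃ * (w - 1) ^ φ * (u * v₃ / v₂) ^ φ) * M₃ ^ φ := by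
      calc M₃ ^ φ = (-(B₂ / B₃) * (u * v₃ / v₂) * M₂ * (w - 1)) ^ φ := by rw [← hM₃]
        _ = (-(B₂ / B₃)) ^ φ * (u * v₃ / v₂) ^ φ * M₂ ^ φ * (w - 1) ^ φ := by
            rw [mul_pow, mul_pow, mul_pow]
        _ = (-(B₂ / B₃)) ^ φ * (u * v₃ / v₂) ^ φ * (ζ * M₃ ^ (φ + 1)) * (w - 1) ^ φ := by rw [hζe]
        _ = _ := by rw [pow_succ]; ring
    exact (mul_eq_right₀ (pow_ne_zero φ M₃0)).1 h8.symm

/-- Case of one term of norm `p` and one smaller term. -/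
theorem caseC (C : Ctx p K) (hD : DEPStmt) {Y₁ Y₂ Y₃ M₁ M₂ M₃ B₁ B₂ B₃ κ v₁ v₃ : K}
    (h : Y₁ + Y₂ = Y₃) (h3 : ‖Y₃‖ = p) (h1 : ‖Y₁‖ = p) (h2 : ‖Y₂‖ < p)
    (hB₁ : Uu p B₁) (hB₂ : Uu p B₂) (hB₃ : Uu p B₃) (hκ : Uu p κ)
    (e₁ : B₁ * M₁ = v₁ * Y₁) (e₃ : B₃ * M₃ = v₃ * Y₃)
    (g₁ : ‖v₁ - 1‖ < th p ^ 3) (g₃ : ‖v₃ - 1‖ < th p ^ 3)
    (e₂ : th p * p ≤ ‖Y₂‖ → ∃ v₂ : K, ‖v₂ - 1‖ < th p ^ 3 ∧ B₂ * M₂ = v₂ * Y₂ ∧ Dp M₂ M₃)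
    (hM : ‖(p : K) * M₃ - κ‖ < th p ^ 3) (d₁ : Dp M₁ M₃) :
    Tame p (M₁ / M₃) ∧ ‖M₁ / M₃ - B₃ / B₁‖ < 1 := by
  have hp := C.ppos
  have nv₁ := gnorm C.t3 g₁
  have nv₃ := gnorm C.t3 g₃
  have v₁0 := gne C.t3 g₁
  have v₃0 := gne C.t3 g₃
  have B₁0 : B₁ ≠ 0 := Ctx.ne hB₁
  have B₂0 : B₂ ≠ 0 := Ctx.ne hB₂
  have B₃0 : B₃ ≠ 0 := Ctx.ne hB₃
  have n₁ : ‖M₁‖ = ‖Y₁‖ := by
    have := congrArg norm e₁
    rwa [norm_mul, norm_mul, hB₁.2, nv₁, one_mul, one_mul] at this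
  have n₃ : ‖M₃‖ = ‖Y₃‖ := by
    have := congrArg norm e₃
    rwa [norm_mul, norm_mul, hB₃.2, nv₃, one_mul, one_mul] at this
  have Y₃p : 0 < ‖Y₃‖ := by rw [h3]; exact hp
  have Y₃0 : Y₃ ≠ 0 := norm_pos_iff.1 Y₃p
  have M₃0 : M₃ ≠ 0 := norm_pos_iff.1 (by rw [n₃]; exact Y₃p)
  have M₃1 : ‖M₃‖ ≠ 1 := by rw [n₃, h3]; exact C.pgt.ne'
  obtain ⟨a, b, ha, hb, hab⟩ := d₁
  obtain ⟨y, w, hyw, hy, hw⟩ := C.spl _
    ((hD K M₁ M₁ M₃ a b a b M₃0 M₃1 ha hb ha hb hab hab).2.1 (by rw [n₁, n₃, h1, h3]))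
  have hy1 : Uu p y := C.tam _ hy
  have hM₁ : M₁ = y * w * M₃ := by
    rw [← hyw]; field_simp
  have hcu : Uu p ((B₁ / B₃) * y) := C.mul _ _ (C.div hB₁ hB₃) hy1
  have key : 1 - ((B₁ / B₃) * y) * w * (v₃ / v₁) = Y₂ / Y₃ := by
    have e₁' : B₁ * (y * w * M₃) = v₁ * Y₁ := by rw [← hM₁]; exact e₁
    have k1 : B₁ * (y * w) * v₃ * Y₃ = B₃ * v₁ * Y₁ := by
      calc B₁ * (y * w) * v₃ * Y₃ = B₁ * (y * w) * (v₃ * Y₃) := by ring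
        _ = B₁ * (y * w) * (B₃ * M₃) := by rw [e₃]
        _ = B₃ * (B₁ * (y * w * M₃)) := by ring
        _ = B₃ * (v₁ * Y₁) := by rw [e₁']
        _ = B₃ * v₁ * Y₁ := by ring
    have hY₂ : Y₂ = Y₃ - Y₁ := by rw [← h]; ring
    rw [hY₂]
    field_simp
    linear_combination -k1
  have hlt : ‖((B₁ / B₃) * y) * w * (v₃ / v₁) - 1‖ < 1 := by
    rw [norm_sub_rev, key, norm_div, h3, div_lt_one hp]
    exact h2
  have gv : ‖v₃ / v₁ - 1‖ < th p ^ 3 := gdiv C.t3 g₃ g₁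
  rcases hw with hw1 | ⟨k, hk, hw⟩
  · subst hw1
    rw [mul_one] at hyw hlt
    refine ⟨by rw [hyw]; exact hy, ?_⟩
    have hc1 : ‖(B₁ / B₃) * y - 1‖ < 1 := by
      have gv1 : ‖v₃ / v₁ - 1‖ < 1 := lt_of_lt_of_le gv C.t3
      have h5 : (B₁ / B₃) * y = (B₁ / B₃) * y * (v₃ / v₁) / (v₃ / v₁) := by
        rw [mul_div_cancel_right₀ _ (gne le_rfl gv1)]
      rw [h5]
      exact gdiv le_rfl hlt gv1
    have h6 : M₁ / M₃ - B₃ / B₁ = (B₃ / B₁) * ((B₁ / B₃) * y - 1) := by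
      rw [hyw]
      field_simp
    rw [h6, norm_mul, norm_div, hB₁.2, hB₃.2, div_one, one_mul]
    exact hc1
  · exfalso
    obtain ⟨w1, w2, w3⟩ := C.wwn k w hk hw
    obtain ⟨u, hu, hu1⟩ := el C hcu.1 w3 w2 gv hlt
    rw [key] at hu1
    have hu0 := gne C.t2 hu
    have hY₂ : Y₂ = -Y₃ * (w - 1) * u := by
      have := (div_eq_iff Y₃0).1 hu1
      rw [this]; ring
    have hn : ‖Y₂‖ = p * ‖w - 1‖ := by
      have := congrArg norm hY₂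
      rw [norm_mul, norm_mul, norm_neg, gnorm C.t2 hu, mul_one, h3] at this
      exact this
    obtain ⟨v₂, g₂, e₂, d₂⟩ := e₂ (by
      rw [hn, mul_comm]
      exact mul_le_mul_of_nonneg_left w2 hp.le)
    have nv₂ := gnorm C.t3 g₂
    have v₂0 := gne C.t3 g₂
    have n₂ : ‖M₂‖ = ‖Y₂‖ := by
      have := congrArg norm e₂
      rwa [norm_mul, norm_mul, hB₂.2, nv₂, one_mul, one_mul] at this
    obtain ⟨c, d, hc, hd, hcd⟩ := d₂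
    set φ := p ^ (k - 1) * (p - 1) with hφ
    have hφ1 : 1 < φ := C.phi k
    obtain ⟨ψ, hψ⟩ : ∃ ψ, φ = ψ + 1 := ⟨φ - 1, by omega⟩
    have hn2 : ‖M₂‖ ^ φ = ‖M₃‖ ^ ψ := by
      rw [n₂, n₃, h3, hn, mul_pow, w1, hψ, pow_succ]
      field_simp
    obtain ⟨ζ, hζ, hζe⟩ := (hD K M₂ M₂ M₃ c d c d M₃0 M₃1 hc hd hc hd hcd hcd).2.2 φ ψ
      (by omega) (by omega) hn2
    have hM₂ : M₂ = -(B₃ / B₂) * (u * v₂ / v₃) * M₃ * (w - 1) := by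
      have k2 : B₂ * M₂ * v₃ = -(B₃ * M₃) * (w - 1) * (u * v₂) := by
        rw [e₂, e₃, hY₂]; ring
      field_simp
      linear_combination k2
    have gu : ‖u * v₂ / v₃ - 1‖ < th p ^ 2 :=
      gdiv C.t2 (gmul C.t2 hu (lt_of_lt_of_le g₂ C.t32)) (lt_of_lt_of_le g₃ C.t32)
    have hζ' : Ro ζ⁻¹ := by
      obtain ⟨m, hm, hm1⟩ := hζ
      exact ⟨m, hm, by rw [inv_pow, hm1, inv_one]⟩
    have hζ0 : ζ ≠ 0 := by
      obtain ⟨m, hm, hm1⟩ := hζ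
      intro h0
      rw [h0, zero_pow (by omega)] at hm1
      exact zero_ne_one hm1
    refine fcl C hk hw (C.pow (C.neg _ (C.div hB₃ hB₂)) φ) hκ hζ' (gpow C.t2p C.t2 gu φ)
      (lt_of_lt_of_le hM C.t32) ?_
    have h8 : ζ * M₃ ^ ψ =
        ((-(B₃ / B₂)) ^ φ * M₃ * (w - 1) ^ φ * (u * v₂ / v₃) ^ φ) * M₃ ^ ψ := by
      calc ζ * M₃ ^ ψ = M₂ ^ φ := hζe.symm
        _ = (-(B₃ / B₂) * (u * v₂ / v₃) * M₃ * (w - 1)) ^ φ := by rw [← hM₂]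
        _ = (-(B₃ / B₂)) ^ φ * (u * v₂ / v₃) ^ φ * M₃ ^ φ * (w - 1) ^ φ := by
            rw [mul_pow, mul_pow, mul_pow]
        _ = (-(B₃ / B₂)) ^ φ * (u * v₂ / v₃) ^ φ * (M₃ ^ ψ * M₃) * (w - 1) ^ φ := by
            rw [← pow_succ, ← hψ]
        _ = _ := by ring
    have h9 := mul_right_cancel₀ (pow_ne_zero ψ M₃0) h8
    calc (-(B₃ / B₂)) ^ φ * ζ⁻¹ * M₃ * (w - 1) ^ φ * (u * v₂ / v₃) ^ φ
        = ((-(B₃ / B₂)) ^ φ * M₃ * (w - 1) ^ φ * (u * v₂ / v₃) ^ φ) * ζ⁻¹ := by ring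
      _ = ζ * ζ⁻¹ := by rw [← h9]
      _ = 1 := mul_inv_cancel₀ hζ0

end

/-- The three term lemma. -/
theorem ttl (hURR : URRStmt) (hURT : URTStmt) (hSPL : SPLStmt) (hWWN : WWNStmt) (hWLM : WLMStmt)
    (hLVV : LVVStmt) (hD : DEPStmt) (hTHB : THBStmt) : TTLStmt := by
  intro p hp hp7 K _ _ _ hE Y₁ Y₂ Y₃ M₁ M₂ M₃ B₁ B₂ B₃ κ ρ hρ0 hρ h h3 hB₁ hB₂ hB₃ hκ hY₃ hM₃ H₁ H₂
  obtain ⟨U1, -, U3, U4, U5⟩ := hURR p hp K hE
  obtain ⟨T1, T2, T3, T4, -⟩ := hTHB p hp (by omega)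
  have hpn : ‖(p : K)‖ = (p : ℝ)⁻¹ := by
    have := Fact.mk hp
    have h1 := hE (p : ℚ)
    rw [padicNorm.padicNorm_p hp.one_lt] at h1
    push_cast at h1
    exact h1
  have C : Ctx p K :=
    { p7 := hp7, t0 := T2, t1 := T3, tp := T4, pn := hpn
      one := by simpa using U3 1
      sub := fun a b ha hb => (U1 a b ha hb).2.2.2
      small := U4
      mul := fun a b ha hb => ⟨(U1 a b ha.1 hb.1).2.1, by rw [norm_mul, ha.2, hb.2, one_mul]⟩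
      neg := fun a ha => ⟨(U1 a a ha.1 ha.1).2.2.1, by rw [norm_neg, ha.2]⟩
      inv := U5
      tam := (hURT p hp K hE).1
      spl := hSPL p hp K
      wwn := fun k w hk hw => by
        obtain ⟨a, b, c, -⟩ := hWWN p hp (by omega) K hE k w hk hw
        exact ⟨a, b, c⟩
      wlm := fun k w B x hk hw hB hx => hWLM p hp (by omega) K hE k w B x hk hw hB hx }
  have hp0 := C.ppos
  have hρ1 : ρ < 1 := lt_of_lt_of_le hρ C.t3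
  -- a term with a good approximation
  have app : ∀ Y M B : K, 0 < ‖Y‖ → ‖Y - B * M‖ ≤ ρ * ‖Y‖ →
      ∃ v : K, ‖v - 1‖ < th p ^ 3 ∧ B * M = v * Y := by
    intro Y M B hY hYM
    have hY0 : Y ≠ 0 := norm_pos_iff.1 hY
    refine ⟨B * M / Y, ?_, by field_simp⟩
    have h1 : B * M / Y - 1 = -(Y - B * M) / Y := by field_simp; ring
    rw [h1, norm_div, norm_neg, div_lt_iff₀ hY]
    exact lt_of_le_of_lt hYM (mul_lt_mul_of_pos_right hρ hY)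
  have hY₃p : 0 < ‖Y₃‖ := by rw [h3]; exact hp0
  obtain ⟨v₃, g₃, e₃⟩ := app Y₃ M₃ B₃ hY₃p (by rw [h3]; exact hY₃)
  have hM : ‖(p : K) * M₃ - κ‖ < th p ^ 3 := lt_of_le_of_lt hM₃ hρ
  have big : ∀ Y : K, (p : ℝ) ≤ ‖Y‖ → th p * p ≤ ‖Y‖ ∧ 0 < ‖Y‖ := by
    intro Y hY
    refine ⟨le_trans ?_ hY, lt_of_lt_of_le hp0 hY⟩
    calc th p * p ≤ 1 * p := mul_le_mul_of_nonneg_right T3.le hp0.le
      _ = p := one_mul _
  have tpos : ∀ Y : K, th p * p ≤ ‖Y‖ → 0 < ‖Y‖ := fun Y hY =>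
    lt_of_lt_of_le (mul_pos T2 hp0) hY
  have A₁ : th p * p ≤ ‖Y₁‖ → ∃ v : K, ‖v - 1‖ < th p ^ 3 ∧ B₁ * M₁ = v * Y₁ ∧ Dp M₁ M₃ := by
    intro hY
    obtain ⟨q1, q2⟩ := H₁ hY
    obtain ⟨v, hv1, hv2⟩ := app Y₁ M₁ B₁ (tpos _ hY) q1
    exact ⟨v, hv1, hv2, q2⟩
  have A₂ : th p * p ≤ ‖Y₂‖ → ∃ v : K, ‖v - 1‖ < th p ^ 3 ∧ B₂ * M₂ = v * Y₂ ∧ Dp M₂ M₃ := by
    intro hY
    obtain ⟨q1, q2⟩ := H₂ hY
    obtain ⟨v, hv1, hv2⟩ := app Y₂ M₂ B₂ (tpos _ hY) q1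
    exact ⟨v, hv1, hv2, q2⟩
  rcases lt_trichotomy ‖Y₁‖ ‖Y₂‖ with hlt | heq | hgt
  · -- the second term dominates
    have h4 := IsUltrametricDist.norm_add_eq_max_of_norm_ne_norm hlt.ne
    rw [h, h3, max_eq_right hlt.le] at h4
    obtain ⟨v₂, g₂, e₂, d₂⟩ := A₂ (big Y₂ h4.le).1
    have h5 := caseC C hD (by rw [add_comm]; exact h) h3 h4.symm (by rw [h4]; exact hlt) hB₂ hB₁
      hB₃ hκ e₂ e₃ g₂ g₃ A₁ hM d₂
    exact Or.inr (Or.inr (Or.inr ⟨by rw [h4]; exact hlt, h4.symm, h5.1, h5.2⟩))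
  · have h4 : (p : ℝ) ≤ ‖Y₂‖ := by
      have h5 := IsUltrametricDist.norm_add_le_max Y₁ Y₂
      rw [h, h3, heq, max_self] at h5
      exact h5
    obtain ⟨v₁, g₁, e₁, d₁⟩ := A₁ (by rw [heq]; exact (big Y₂ h4).1)
    obtain ⟨v₂, g₂, e₂, d₂⟩ := A₂ (big Y₂ h4).1
    rcases h4.eq_or_lt with h5 | h5
    · -- all three terms have norm `p`
      left
      have v₁0 := gne C.t3 g₁
      have v₂0 := gne C.t3 g₂
      have v₃0 := gne C.t3 g₃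
      have B₃0 : B₃ ≠ 0 := Ctx.ne hB₃
      have nv₁ := gnorm C.t3 g₁
      have nv₂ := gnorm C.t3 g₂
      have nv₃ := gnorm C.t3 g₃
      have n₁ : ‖M₁‖ = p := by
        have := congrArg norm e₁
        rwa [norm_mul, norm_mul, hB₁.2, nv₁, one_mul, one_mul, heq, ← h5] at this
      have n₂ : ‖M₂‖ = p := by
        have := congrArg norm e₂
        rwa [norm_mul, norm_mul, hB₂.2, nv₂, one_mul, one_mul, ← h5] at this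
      have n₃ : ‖M₃‖ = p := by
        have := congrArg norm e₃
        rwa [norm_mul, norm_mul, hB₃.2, nv₃, one_mul, one_mul, h3] at this
      have M₃0 : M₃ ≠ 0 := norm_pos_iff.1 (by rw [n₃]; exact hp0)
      have M₃1 : ‖M₃‖ ≠ 1 := by rw [n₃]; exact C.pgt.ne'
      have Y₃0 : Y₃ ≠ 0 := norm_pos_iff.1 hY₃p
      obtain ⟨a, b, ha, hb, hab⟩ := d₁
      obtain ⟨c, d, hc, hd, hcd⟩ := d₂
      have r₁ := (hD K M₁ M₁ M₃ a b a b M₃0 M₃1 ha hb ha hb hab hab).2.1 (by rw [n₁, n₃])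
      have r₂ := (hD K M₂ M₂ M₃ c d c d M₃0 M₃1 hc hd hc hd hcd hcd).2.1 (by rw [n₂, n₃])
      have h6 : ‖B₁ / B₃ * (M₁ / M₃) + B₂ / B₃ * (M₂ / M₃) - 1‖ < th p ^ 2 := by
        have k1 : B₁ / B₃ * (M₁ / M₃) + B₂ / B₃ * (M₂ / M₃) - 1 =
            ((v₁ - 1) * Y₁ + (v₂ - 1) * Y₂ + -((v₃ - 1) * Y₃)) / (B₃ * M₃) := by
          have k2 : B₁ / B₃ * (M₁ / M₃) + B₂ / B₃ * (M₂ / M₃) - 1 =
            (B₁ * M₁ + B₂ * M₂ - B₃ * M₃) / (B₃ * M₃) := by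
            field_simp
          rw [k2]
          congr 1
          rw [e₁, e₂, e₃]
          linear_combination h
        rw [k1, norm_div, norm_mul, hB₃.2, n₃, one_mul, div_lt_iff₀ hp0]
        refine lt_of_lt_of_le ?_ (mul_le_mul_of_nonneg_right C.t32 hp0.le)
        refine lt_of_le_of_lt (IsUltrametricDist.norm_add_le_max _ _) (max_lt ?_ ?_)
        · refine lt_of_le_of_lt (IsUltrametricDist.norm_add_le_max _ _) (max_lt ?_ ?_)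
          · rw [norm_mul, heq, ← h5]
            exact mul_lt_mul_of_pos_right g₁ hp0
          · rw [norm_mul, ← h5]
            exact mul_lt_mul_of_pos_right g₂ hp0
        · rw [norm_neg, norm_mul, h3]
          exact mul_lt_mul_of_pos_right g₃ hp0
      have h7 := hLVV p hp (by omega) K hE (B₁ / B₃) (B₂ / B₃) (M₁ / M₃) (M₂ / M₃)
        (C.div hB₁ hB₃) (C.div hB₂ hB₃) r₁ r₂ h6
      exact ⟨by rw [heq, ← h5], h5.symm, h7.1, h7.2⟩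
    · -- two equal large terms
      have h6 := caseB C hD h h3 heq h5 hB₁ hB₂ hB₃ hκ e₁ e₂ e₃ g₁ g₂ g₃ hM d₁ d₂
      exact Or.inr (Or.inl ⟨by rw [heq]; exact h5, heq, h6.1, h6.2⟩)
  · -- the first term dominates
    have h4 := IsUltrametricDist.norm_add_eq_max_of_norm_ne_norm hgt.ne'
    rw [h, h3, max_eq_left hgt.le] at h4
    obtain ⟨v₁, g₁, e₁, d₁⟩ := A₁ (big Y₁ h4.le).1
    have h5 := caseC C hD h h3 h4.symm (by rw [h4]; exact hgt) hB₁ hB₂ hB₃ hκ e₁ e₃ g₁ g₃ A₂ hM d₁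
    exact Or.inr (Or.inr (Or.inl ⟨h4.symm, by rw [h4]; exact hgt, h5.1, h5.2⟩))

end

end Pool.Agent.ZP3.H28
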